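import Pool.Agent.Helper4.AE.All

/-!
# MP_35947b_nt: almost all optimal additive bases modulo `m` have no large cyclic gap

`sg A n` is the number of representations of `n` as an ordered sum of two elements of `A`,
`Bs r A` says `1 ≤ sg A n ≤ r` for all `n`, `Rz m` is the Ruzsa number, `Fam m` the family of all
optimal bases (`1 ≤ sg A n ≤ Rz m` for all `n`), `gap A` the largest cyclic gap, and `dil u A` the
dilate `u A` by a unit `u` modulo `m`; see `Pool/Agent/Helper4/AE/Defs.lean`.
-/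

set_option autoImplicit false

namespace Pool.Agent.Results.MP_35947b_nt.AlmostAllBases

open Finset Pool.Agent.Helper4.AE

/-- For every `δ > 0` there is `C` such that for every `m ≥ 1` the family of the optimal bases modulo
`m` is nonempty and closed under dilations by units, and for every `ε > 0` and every subfamily `F`
which is closed under dilations by units (for example the whole family, or the set of the dilates of
one basis) at most `C m ^ (δ - 1/2) ε⁻² |F|` members of `F` have a cyclic gap `≥ ε m`. -/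
theorem result : ∀ δ : ℝ, 0 < δ → ∃ C : ℝ, 0 < C ∧ ∀ (m : ℕ) [NeZero m],
    (Fam m).Nonempty ∧ (∀ A ∈ Fam m, ∀ u : (ZMod m)ˣ, dil u A ∈ Fam m) ∧
    ∀ (ε : ℝ) (F : Finset (Finset (ZMod m))), 0 < ε → F ⊆ Fam m →
      (∀ A ∈ F, ∀ u : (ZMod m)ˣ, dil u A ∈ F) →
      ((F.filter fun A => ε * m ≤ (gap A : ℝ)).card : ℝ) ≤
        C * (m : ℝ) ^ (δ - 1 / 2) / ε ^ 2 * F.card := by
  classical
  intro δ hδ
  obtain ⟨C, hC, hmain⟩ := hFIN δ hδ
  refine ⟨C, hC, ?_⟩
  intro m _
  refine ⟨(hmain m 1 one_pos).1, fun A hA u => ((hmain m 1 one_pos).2.1 A hA).1 u, ?_⟩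
  intro ε F hε hF hcl
  have hm : 0 < m := Nat.pos_of_ne_zero (NeZero.ne m)
  have hb := (hmain m ε hε).2.1
  -- double counting of the pairs `(u, A)` such that `u A` has a large gap
  have h1 : ∀ A : Finset (ZMod m), ((Finset.univ : Finset (ZMod m)ˣ).filter
      fun u => ε * m ≤ (gap (dil u A) : ℝ)).card =
      ∑ u : (ZMod m)ˣ, if ε * m ≤ (gap (dil u A) : ℝ) then 1 else 0 :=
    fun A => Finset.card_filter _ _
  have h2 : (F.filter fun A => ε * m ≤ (gap A : ℝ)).card =
      ∑ A ∈ F, if ε * m ≤ (gap A : ℝ) then 1 else 0 := Finset.card_filter _ _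
  have h3 : ∀ u : (ZMod m)ˣ, ∑ A ∈ F, (if ε * m ≤ (gap (dil u A) : ℝ) then 1 else 0) =
      ∑ A ∈ F, if ε * m ≤ (gap A : ℝ) then 1 else 0 := by
    intro u
    refine Finset.sum_nbij' (fun A => dil u A) (fun A => dil u⁻¹ A) ?_ ?_ ?_ ?_ ?_
    · intro A hA
      exact hcl A hA u
    · intro A hA
      exact hcl A hA u⁻¹
    · intro A _
      exact Pool.Agent.Helper82.AE.dil_inv u A
    · intro A _
      exact Pool.Agent.Helper82.AE.dil_inv' u A
    · intro A _
      rfl
  have h4 : ∑ A ∈ F, ((Finset.univ : Finset (ZMod m)ˣ).filter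
      fun u => ε * m ≤ (gap (dil u A) : ℝ)).card =
      Nat.totient m * (F.filter fun A => ε * m ≤ (gap A : ℝ)).card := by
    rw [Finset.sum_congr rfl (fun A _ => h1 A), Finset.sum_comm,
      Finset.sum_congr rfl (fun u _ => h3 u), ← h2,
      Finset.sum_const, Finset.card_univ, ZMod.card_units_eq_totient, smul_eq_mul]
  have h5 : ((∑ A ∈ F, ((Finset.univ : Finset (ZMod m)ˣ).filter
      fun u => ε * m ≤ (gap (dil u A) : ℝ)).card : ℕ) : ℝ) ≤
      F.card * (C * (m : ℝ) ^ (δ - 1 / 2) / ε ^ 2 * Nat.totient m) := by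
    push_cast
    calc _ ≤ ∑ A ∈ F, (C * (m : ℝ) ^ (δ - 1 / 2) / ε ^ 2 * Nat.totient m) := by
          apply Finset.sum_le_sum
          intro A hA
          convert (hb A (hF hA)).2
      _ = _ := by rw [Finset.sum_const, nsmul_eq_mul]
  rw [h4] at h5
  have h6 : (0 : ℝ) < Nat.totient m := by exact_mod_cast Nat.totient_pos.mpr hm
  have h7 : (Nat.totient m : ℝ) * (((F.filter fun A => ε * m ≤ (gap A : ℝ)).card : ℕ) : ℝ) ≤
      Nat.totient m * (C * (m : ℝ) ^ (δ - 1 / 2) / ε ^ 2 * F.card) := by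
    refine le_trans (le_of_eq ?_) (h5.trans (le_of_eq ?_))
    · push_cast
      rfl
    · ring
  exact le_of_mul_le_mul_left h7 h6

end Pool.Agent.Results.MP_35947b_nt.AlmostAllBases
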